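import Pool.Agent.Q318.CO.ContFin

set_option autoImplicit false

/-!
# Continued fractions all of whose convergents have numerator and denominator inside long runs of composite numbers

Let `d` be a fixed number of partial quotients. There is `C > 0` such that for all large `g`, for
`T = exp (C g (log log g)² / ((log g)² log log log g))` and for all `M_0, …, M_{d-1} ≥ 0` there are partial quotients
`M_i < a_i ≤ M_i + T` such that for ALL `i ≤ j < d` the numerator and the denominator `v` (if `j > i`) of the continued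
fraction `[a_i; a_{i+1}, …, a_j]` have the following property: every integer at distance at most `g` of `v` has a prime
factor `≤ T ^ (1/10)`; so if `v > T`, then `v - g, …, v + g` are composite. For `i = 0` these are all the convergents of
`[a_0; a_1, …, a_{d-1}]`.

So runs of `2 g + 1` composite numbers occur at the height `log v ≪ g (log log g)² / ((log g)² log log log g)` (the size
of the starting repository's upper bound for `log p(g)`) around all these numbers at the same time.

Proof. The numerators and denominators are the continuants of the intervals of partial quotients. Modulo a prime `p` the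
number of the zeros of `K = r` is `p ^ (d-1) + O(p ^ (d-2))` for `r ≠ 0, 1`, and the number of the solutions of `K = r`,
`K' = s` is `O(p ^ (d-2))` for two different intervals, `r, s ≠ 0, 1` (two steps of the recursion at one end of the interval).
This is what the covering criterion of the starting library (`Pool.Agent.Y837.SV.crit3`) needs; the values `0` and `1`
are taken modulo all primes and are treated there separately.
-/

namespace Pool.Agent.Results.MP_926cc3_nt.ContinuedFractions

/-- the continued fraction `[a i; a (i + 1), …, a (i + m)]` -/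
def cf (a : ℕ → ℤ) : ℕ → ℕ → ℚ
  | i, 0 => a i
  | i, (m + 1) => a i + 1 / cf a (i + 1) m

/-- `T = exp (C g (log log g)² / ((log g)² log log log g))` -/
noncomputable def T (C : ℝ) (g : ℕ) : ℝ :=
  Real.exp (C * g * (Real.log (Real.log g)) ^ 2 / ((Real.log g) ^ 2 * Real.log (Real.log (Real.log g))))

/-- every integer at distance at most `g` of `v` has a prime factor `≤ T ^ (1 / 10)` -/
def Near (C : ℝ) (g : ℕ) (v : ℤ) : Prop :=
  ∀ n : ℤ, |n - v| ≤ g → ∃ p : ℕ, p.Prime ∧ (p : ℝ) ≤ T C g ^ (1 / 10 : ℝ) ∧ (p : ℤ) ∣ n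

/-- all the integers at distance at most `g` of `v` are composite natural numbers -/
def Run (g : ℕ) (v : ℤ) : Prop := ∀ n : ℤ, |n - v| ≤ g → 1 < n ∧ ¬ n.toNat.Prime

open Pool.Agent.Q318.CO (K K_zero K_one K_left ext)

lemma K_pos (a : ℕ → ℤ) (m : ℕ) : ∀ i : ℕ, (∀ n, i ≤ n → n < i + m → 0 < a n) → 0 < K a i m := by
  induction m using Nat.strong_induction_on with
  | _ m ih =>
    intro i h
    match m with
    | 0 => rw [K_zero]; exact one_pos
    | 1 => rw [K_one]; exact h i le_rfl (by omega)
    | (m + 2) =>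
      rw [K_left]
      have h1 := ih (m + 1) (by omega) (i + 1) (fun n h1 h2 => h n (by omega) (by omega))
      have h2 := ih m (by omega) (i + 2) (fun n h1 h2 => h n (by omega) (by omega))
      have h3 := h i le_rfl (by omega)
      positivity

lemma K_coprime (a : ℕ → ℤ) (m : ℕ) : ∀ i : ℕ, IsCoprime (K a i (m + 1)) (K a (i + 1) m) := by
  induction m with
  | zero =>
    intro i
    rw [K_zero]
    exact isCoprime_one_right
  | succ m ih =>
    intro i
    rw [K_left, add_comm (a i * _), IsCoprime.add_mul_right_left_iff]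
    exact (ih (i + 1)).symm

lemma cf_eq (a : ℕ → ℤ) (m : ℕ) : ∀ i : ℕ, (∀ n, i ≤ n → n ≤ i + m → 0 < a n) →
    cf a i m = ((K a i (m + 1) : ℤ) : ℚ) / ((K a (i + 1) m : ℤ) : ℚ) := by
  induction m with
  | zero =>
    intro i _
    rw [cf, K_zero, K_one]
    simp
  | succ m ih =>
    intro i h
    rw [cf, ih (i + 1) (fun n h1 h2 => h n (by omega) (by omega)), K_left]
    have h1 : (0 : ℚ) < ((K a (i + 1) (m + 1) : ℤ) : ℚ) := by
      exact_mod_cast K_pos a (m + 1) (i + 1) (fun n h1 h2 => h n (by omega) (by omega))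
    rw [one_div_div]
    push_cast
    field_simp

lemma num_den (a : ℕ → ℤ) (i m : ℕ) (h : ∀ n, i ≤ n → n ≤ i + m → 0 < a n) :
    (cf a i m).num = K a i (m + 1) ∧ ((cf a i m).den : ℤ) = K a (i + 1) m := by
  have h1 : 0 < K a (i + 1) m := K_pos a m (i + 1) (fun n h1 h2 => h n (by omega) (by omega))
  have h2 : Nat.Coprime (K a i (m + 1)).natAbs (K a (i + 1) m).natAbs :=
    Int.isCoprime_iff_nat_coprime.1 (K_coprime a m i)
  rw [cf_eq a m i h]
  exact ⟨Rat.num_div_eq_of_coprime h1 h2, Rat.den_div_eq_of_coprime h1 h2⟩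

lemma near_run (C : ℝ) (g : ℕ) (v : ℤ) (h : Near C g v) (hv : T C g + g < v) : Run g v := by
  intro n hn
  obtain ⟨p, hp, hp2, hp3⟩ := h n hn
  have hT1 : T C g ^ (1 / 10 : ℝ) ≤ max (T C g) 1 := by
    rcases le_or_gt 1 (T C g) with h1 | h1
    · refine le_trans ?_ (le_max_left _ _)
      calc T C g ^ (1 / 10 : ℝ) ≤ T C g ^ (1 : ℝ) := Real.rpow_le_rpow_of_exponent_le h1 (by norm_num)
        _ = _ := Real.rpow_one _
    · exact (Real.rpow_le_one (Real.exp_pos _).le h1.le (by norm_num)).trans (le_max_right _ _)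
  have h2 : (v : ℝ) - g ≤ n := by
    have h3 : v - g ≤ n := by
      have := (abs_le.1 hn).1
      linarith
    exact_mod_cast h3
  have hpT : (p : ℝ) ≤ T C g := by
    rcases le_or_gt 1 (T C g) with h1 | h1
    · rw [max_eq_left h1] at hT1
      linarith
    · rw [max_eq_right h1.le] at hT1
      have : (2 : ℝ) ≤ p := by exact_mod_cast hp.two_le
      linarith
  have h4 : (p : ℝ) < n := by linarith
  have h5 : (p : ℤ) < n := by exact_mod_cast h4
  have h6 : (1 : ℤ) < p := by exact_mod_cast hp.one_lt
  refine ⟨by omega, fun hnp => ?_⟩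
  have h7 : (p : ℤ) ∣ (n.toNat : ℤ) := by rwa [Int.toNat_of_nonneg (by omega)]
  have h8 : p = n.toNat := (Nat.prime_dvd_prime_iff_eq hp hnp).1 (by exact_mod_cast h7)
  omega

/-- **Continued fractions inside long runs of composite numbers.** -/
theorem result (d : ℕ) : ∃ C : ℝ, 0 < C ∧ ∃ G : ℕ, ∀ g : ℕ, G ≤ g → ∀ M : Fin d → ℤ, (∀ i, 0 ≤ M i) →
    ∃ a : ℕ → ℤ, (∀ i : Fin d, M i < a i ∧ (a i : ℝ) ≤ M i + T C g) ∧
      ∀ i m : ℕ, i + m < d →
        (Near C g (cf a i m).num ∧ (T C g + g < (cf a i m).num → Run g (cf a i m).num)) ∧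
        (0 < m → Near C g (cf a i m).den ∧ (T C g + g < (cf a i m).den → Run g (cf a i m).den)) := by
  obtain ⟨C, hC, G, h⟩ := Pool.Agent.Q318.CO.cont_first d
  refine ⟨C, hC, G, fun g hg M hM => ?_⟩
  obtain ⟨x, hx1, hx2⟩ := h g hg M
  have hexp : Real.exp (Pool.Agent.Y837.SV.tt C g / 10) = T C g ^ (1 / 10 : ℝ) := by
    unfold T
    rw [← Real.exp_mul]
    congr 1
    unfold Pool.Agent.Y837.SV.tt
    ring
  have hnear : ∀ i m : ℕ, 1 ≤ m → i + m ≤ d → Near C g (K (ext x) i m) := by
    intro i m hm him n hn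
    rw [← hexp]
    exact hx2 ⟨(⟨i, by omega⟩, ⟨m, by omega⟩), hm, him⟩ n hn
  have hpos : ∀ n, n < d → 0 < ext x n := by
    intro n hn
    rw [Pool.Agent.Q318.CO.ext_fin x n hn]
    have h1 := (hx1 ⟨n, hn⟩).1
    have h2 : M ⟨n, hn⟩ < x ⟨n, hn⟩ := by exact_mod_cast h1
    have := hM ⟨n, hn⟩
    omega
  refine ⟨ext x, fun i => ?_, fun i m him => ?_⟩
  · rw [Pool.Agent.Q318.CO.ext_fin x i i.2]
    refine ⟨by exact_mod_cast (hx1 i).1, ?_⟩
    refine (hx1 i).2.trans (le_of_eq ?_)
    rfl
  · obtain ⟨h1, h2⟩ := num_den (ext x) i m (fun n _ h2 => hpos n (by omega))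
    rw [h1]
    refine ⟨⟨hnear i (m + 1) (by omega) (by omega), fun hv => near_run C g _ (hnear i (m + 1) (by omega) (by omega)) hv⟩,
      fun hm => ?_⟩
    have h3 := hnear (i + 1) m hm (by omega)
    rw [← h2] at h3
    exact ⟨h3, fun hv => near_run C g _ h3 (by exact_mod_cast hv)⟩

end Pool.Agent.Results.MP_926cc3_nt.ContinuedFractions
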