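import Pool.Agent.Q20.RG.Inv

/-!
# Record prime gaps around all the entries of a matrix and of its inverse modulo `p`

For every `n ≥ 2` and `0 < ε ≤ 1` there is `κ > 0` such that for all large primes `p`, all integer matrices
`C` with determinant prime to `p` and all sets `D` of nonzero residues modulo `p`, every box
`∏ [A_ij, A_ij + N_ij) × ∏ [A'_ij, A'_ij + N'_ij)` of pairs of matrices, with sides at least `p^ε` and of
volume at least `p^(2n² - n + 2 + ε) / #D`, contains at least `#D · (volume) · p^(-n² - 1 - ε)` pairs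
`(Z, W)` with `Z W ≡ C` and `det Z ∈ D` modulo `p` (about `#D (volume) p^(-n² - 1)` are expected) such that
ALL the `2n²` entries of `Z` and `W` are isolated on the record scale: no prime lies at distance at most
`κ log p (log₂ p)² log₄ p / (log₃ p)²` of any of them.  `C = 1` is the case of a matrix and its inverse
modulo `p`; `D` all the residues prime to `p` is the case without a condition on the determinant, in boxes
of volume `p^(2n² - n + 1 + ε)`, and `#D = 1` prescribes the determinant of `Z` and of `W`.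

Proof (`Pool.Agent.Q20.RG`): bounds for the Kloosterman sums
`∑_(det X ∈ D) ψ(tr (H X) + tr (H' X⁻¹))` of matrices from the invariance under `X ↦ X E`, `E` elementary,
and a count of the degenerate matrices; completion in `2n²` coordinates and helper46's form
(`Pool.Agent.Q46.MH.crit_many`) of the covering criterion for vectors of integers of the starting
repository (`Pool.Agent.Y961.JR.critJ`).
-/

set_option autoImplicit false

namespace Pool.Agent.Results.MP_926cc3_nt.InverseMatrices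

/-- the record scale `log x (log₂ x)² log₄ x / (log₃ x)²` -/
noncomputable def scale (x : ℝ) : ℝ :=
  Real.log x * (Real.log (Real.log x)) ^ 2 * Real.log (Real.log (Real.log (Real.log x))) /
    (Real.log (Real.log (Real.log x))) ^ 2

/-- no prime at distance at most `K` of `n` -/
def Isolated (K : ℝ) (n : ℕ) : Prop := ∀ q : ℕ, q.Prime → K < |(q : ℝ) - n|

/-- **Isolated matrices with isolated inverses modulo `p`.** For `n ≥ 2`, all large primes `p`, all integer
matrices `C` with `p ∤ det C`, all sets `D` of nonzero residues modulo `p` and all boxes of intervals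
`[A a b, A a b + N a b)`, `[A' a b, A' a b + N' a b)` in `[0, p)` of lengths at least `p^ε` with
`#D ∏ N a b ∏ N' a b ≥ p^(2n² - n + 2 + ε)`, at least `#D (∏ N a b ∏ N' a b) p^(-n² - 1 - ε)` pairs `(Z, W)` of
matrices of natural numbers in the two boxes satisfy `Z W ≡ C` modulo `p`, `det Z ∈ D` modulo `p`, and have
all their entries isolated on the record scale. -/
theorem result : ∀ n : ℕ, 2 ≤ n → ∀ ε : ℝ, 0 < ε → ε ≤ 1 →
    ∃ κ : ℝ, 0 < κ ∧ ∃ p₀ : ℕ, ∀ p : ℕ, p₀ ≤ p → p.Prime →
    ∀ C : Matrix (Fin n) (Fin n) ℤ, ¬ (p : ℤ) ∣ C.det →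
    ∀ D : Finset (ZMod p), (0 : ZMod p) ∉ D →
    ∀ A N A' N' : Fin n → Fin n → ℕ, (∀ a b, A a b + N a b ≤ p ∧ A' a b + N' a b ≤ p) →
      (∀ a b, (p : ℝ) ^ ε ≤ N a b ∧ (p : ℝ) ^ ε ≤ N' a b) →
      (p : ℝ) ^ (2 * (n : ℝ) * n - n + 2 + ε) ≤
        D.card * ((∏ a, ∏ b, (N a b : ℝ)) * ∏ a, ∏ b, (N' a b : ℝ)) →
      ∃ G : Finset (Matrix (Fin n) (Fin n) ℕ × Matrix (Fin n) (Fin n) ℕ),
        D.card * ((∏ a, ∏ b, (N a b : ℝ)) * ∏ a, ∏ b, (N' a b : ℝ)) *
            (p : ℝ) ^ (-((n : ℝ) * n) - 1 - ε) ≤ G.card ∧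
        ∀ g ∈ G, (∀ a b, A a b ≤ g.1 a b ∧ g.1 a b < A a b + N a b) ∧
          (∀ a b, A' a b ≤ g.2 a b ∧ g.2 a b < A' a b + N' a b) ∧
          (g.1.map (fun z : ℕ => (z : ZMod p))).det ∈ D ∧
          (∀ a b, (p : ℤ) ∣ ∑ c, (g.1 a c : ℤ) * g.2 c b - C a b) ∧
          ∀ a b, Isolated (κ * scale p) (g.1 a b) ∧ Isolated (κ * scale p) (g.2 a b) := by
  intro n hn ε h0 h1
  obtain ⟨κ, hκ, p₀, h⟩ := Pool.Agent.Q20.RG.invmain n hn ε h0 h1
  refine ⟨κ, hκ, p₀, fun p hp0 hp C hC D hD A N A' N' hA hN hW => ?_⟩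
  obtain ⟨G, g1, g2⟩ := h p hp0 hp C hC D hD A N A' N' hA hN hW
  refine ⟨G, g1, fun g hg => ?_⟩
  obtain ⟨a1, a2, a3, a4, a5⟩ := g2 g hg
  exact ⟨a1, a2, a3, a4, fun a b => ⟨fun q hq => (a5 q hq a b).1, fun q hq => (a5 q hq a b).2⟩⟩

end Pool.Agent.Results.MP_926cc3_nt.InverseMatrices
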