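import Pool.Agent.Q46.IP.Tools
import Pool.Agent.Q46.SL.Config

/-!
# Long gaps between almost primes at all the distances of configurations of points

The problem is on the first occurrence of long gaps between primes. For every even `τ ≤ κ rankin(p)` we find many configurations
of `k` points from arbitrary large sets such that ALL their distances `x` are almost primes which begin (or end) a gap of length
exactly `|τ|` between consecutive almost primes below `p`.

Let `p` be a large prime and let `V_1, ..., V_k` be ARBITRARY sets of vectors with `d` coordinates in the field with `p` elements,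
`|V_i| |V_j| ≥ p ^ (d + ε)`. Many configurations `(X_1, ..., X_k)` in `V_1 × ... × V_k` are such that the least residues of ALL the
`k (k - 1) / 2` distances `∑ (X_i - X_j)²` have the property.

Here the property is: `x` and `x + τ` have at most `R` prime factors, all larger than `M ^ κ`, while EVERY other integer within
distance `κ rankin(M)` of `x` has a prime factor `≤ log M`; `τ` is an arbitrary even integer with `|τ| ≤ κ rankin(M)`, and
`rankin(M) = log M log₂ M log₄ M / (log₃ M) ^ 2`. (`M = p`)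

Design and proof: helper46 (modules `Pool.Agent.Q46.IP.*`, `Pool.Agent.Q46.SL.*`): the Rankin covering argument with holes at the
pattern gives a modulus and a residue class in which everything else near the pattern is covered by the small primes; the sieve is
applied to the vectors of residues in this class, which are equidistributed with a power saving by bounds for exponential sums.
-/

set_option autoImplicit false

namespace Pool.Agent.Results.MP_926cc3_nt.PointConfigurations

open Finset Polynomial Filter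
open Pool.Agent.Q46.SL hiding Almost
open Pool.Agent.Q46.IP (Lone csL evI sysT adm_pair adm_one lone_tuple lone_pair lone_one)

/-- `n` is not zero and has at most `R` prime factors (counted with multiplicity), all larger than `z` -/
def Almost (z : ℝ) (R : ℕ) (n : ℤ) : Prop :=
  n ≠ 0 ∧ n.natAbs.primeFactorsList.length ≤ R ∧ ∀ q : ℕ, q.Prime → (q : ℤ) ∣ n → z < q

/-- Rankin's function `log M log₂ M log₄ M / (log₃ M) ^ 2` (iterated logarithms) -/
noncomputable def rankin (M : ℝ) : ℝ :=
  Real.log M * Real.log (Real.log M) * Real.log (Real.log (Real.log (Real.log M))) /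
    (Real.log (Real.log (Real.log M))) ^ 2

/-- `x` is positive, `x` and `x + τ` have at most `R` prime factors, all larger than `M ^ κ`, and every other integer `x + i` with
`|i| ≤ κ rankin(M)` has a prime factor `≤ log M` -/
def GapAt (τ : ℤ) (κ M : ℝ) (R : ℕ) (x : ℤ) : Prop :=
  0 < x ∧ Almost (M ^ κ) R x ∧ Almost (M ^ κ) R (x + τ) ∧
    ∀ i : ℤ, |(i : ℝ)| ≤ κ * rankin M → i ≠ 0 → i ≠ τ → ∃ q : ℕ, q.Prime ∧ (q : ℝ) ≤ Real.log M ∧ (q : ℤ) ∣ x + i

/-- the pairs `i < j` of indices -/
abbrev Pairs (k : ℕ) : Type := {z : Fin k × Fin k // z.1 < z.2}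

/-- the distance of two vectors, an element of the field with `p` elements -/
def dist {p d : ℕ} (x y : Fin d → ZMod p) : ZMod p := ∑ l, (x l - y l) ^ 2

open Classical in
/-- the number of `X` in `V_1 × ... × V_k` such that for all `i < j` the least residue `y` of the distance of `X_i` and
`X_j` satisfies `u i j ≤ y < u i j + N i j` and has the property `P` -/
noncomputable def hits {p k d : ℕ} (V : Fin k → Finset (Fin d → ZMod p)) (u N : Pairs k → ℕ) (P : ℤ → Prop) : ℕ :=
  ((Fintype.piFinset V).filter (fun X => ∀ z : Pairs k,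
    (u z ≤ (dist (X z.1.1) (X z.1.2)).val ∧ (dist (X z.1.1) (X z.1.2)).val < u z + N z) ∧
      P (dist (X z.1.1) (X z.1.2)).val)).card

/-- Every even `τ ≤ κ rankin(p)` is a gap between almost primes `x`, `x + τ` for ALL the distances `x` of many configurations of points. -/
theorem result (k : ℕ) (hk : 2 ≤ k) (ε : ℝ) (hε : 0 < ε) (hε1 : ε ≤ 1) :
    ∃ κ : ℝ, 0 < κ ∧ ∃ R p₀ : ℕ, ∀ p : ℕ, p₀ ≤ p → p.Prime → ∀ τ : ℤ, Even τ → |(τ : ℝ)| ≤ κ * rankin p → ∀ (d : ℕ) (V : Fin k → Finset (Fin d → ZMod p)) (u N : Pairs k → ℕ),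
      (∀ z, u z + N z ≤ p) → (∀ z, (p : ℝ) ^ ε ≤ N z) →
      (∀ z : Pairs k, (p : ℝ) ^ (d + ε) ≤ (∏ w : Pairs k, (N w : ℝ) / p) ^ 2 * (V z.1.1).card * (V z.1.2).card) →
      ((∏ w : Pairs k, (N w : ℝ) / p) * (∏ i, ((V i).card : ℝ))) * (p : ℝ) ^ (-ε) ≤ hits V u N (GapAt τ κ p R) := by
  classical
  obtain ⟨κ, hκ, cc, hcc, p₀, h⟩ := Pool.Agent.Q46.SL.configs (Lone 3 : PE 2 0 2 → ℝ → ℝ → ℤ → Prop)
    (fun k' M => M ^ (-(ε / (2 * ((((Fintype.card (Pairs k)) : ℕ) : ℝ) + 1)) * k'))) (fun k' _ => csL 2 2 3 (ε / (2 * ((((Fintype.card (Pairs k)) : ℕ) : ℝ) + 1))) (by positivity) k') k hk ε hε hε1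
  obtain ⟨p₁, hp₁8, hp₁, hp₂⟩ := evI hcc hε hκ (Fintype.card (Pairs k))
  refine ⟨κ, hκ, ⌊((2 : ℕ) + 2 : ℝ) / κ⌋₊, max p₁ p₀, ?_⟩
  intro p hp hpp τ hτ hτκ d V u N hu hN hV
  have hpr : (p₁ : ℝ) ≤ p := by exact_mod_cast (le_max_left _ _).trans hp
  have : Fact p.Prime := ⟨hpp⟩
  have key := h p ((le_max_right _ _).trans hp) (sysT ![0, τ] (adm_pair hτ)) hpp d V u N hu hN hV
  refine le_trans (hp₁ _ hpr _ (mul_nonneg (prod_nonneg fun _ _ => div_nonneg (Nat.cast_nonneg _) (Nat.cast_nonneg _))
    (prod_nonneg fun _ _ => Nat.cast_nonneg _))) (key.trans ?_)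
  unfold hits Pool.Agent.Q46.SL.conf
  refine Nat.cast_le.2 ?_
  apply card_le_card
  intro X hX
  rw [mem_filter] at hX ⊢
  exact ⟨hX.1, fun z => ⟨(hX.2 z).1, lone_pair hτ hp₁8 hpr (hp₂ _ hpr) hτκ (hX.2 z).2 (by exact_mod_cast (ZMod.val_lt _).le)⟩⟩

end Pool.Agent.Results.MP_926cc3_nt.PointConfigurations
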