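import Pool.Agent.Q46.IP.Tools
import Pool.Agent.Q46.SL.Sumset

/-!
# Long runs of composites interrupted exactly at a prescribed pattern: polynomials on sumsets

The problem is on the first occurrence of long runs of composite numbers. We find, below `p`, runs of length `κ rankin(p)` of
numbers divisible by a prime `≤ log p`, interrupted exactly at an arbitrary prescribed pattern of almost primes, around the
residues of `f(a + b) + u(a) + v(b)`.

Let `p` be a large prime and let `A`, `B` be ARBITRARY sets of residues with `|A| |B| ≥ p ^ (1 + ε)` and `|A| ≥ p ^ (1 / 2 + ε)` (or more,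
if the values are restricted to a short interval `[s, s + N)`). For every polynomial `f` of degree `d ≥ 2` and all functions `u`, `v`
many pairs `(a, b)` in `A × B` are such that the least residue of `f(a + b) + u(a) + v(b)` has the property.

Here the property is: all `x + t_j` have at most `R` prime factors, all larger than `M ^ κ`, while EVERY other integer within
distance `κ rankin(M)` of `x` has a prime factor `≤ log M`; `t` is an arbitrary pattern without local obstruction, `|t_j| ≤ (log
M) ^ B`, and `rankin(M) = log M log₂ M log₄ M / (log₃ M) ^ 2`. (`M = p`)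

Design and proof: helper46 (modules `Pool.Agent.Q46.IP.*`, `Pool.Agent.Q46.SL.*`): the Rankin covering argument with holes at the
pattern gives a modulus and a residue class in which everything else near the pattern is covered by the small primes; the sieve is
applied to the vectors of residues in this class, which are equidistributed with a power saving by bounds for exponential sums.
-/

set_option autoImplicit false

namespace Pool.Agent.Results.MP_926cc3_nt.PolynomialsOnSumsets

open Finset Polynomial Filter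
open Pool.Agent.Q46.SL hiding Almost
open Pool.Agent.Q46.IP (Lone csL evI sysT adm_pair adm_one lone_tuple lone_pair lone_one)

/-- `n` is not zero and has at most `R` prime factors (counted with multiplicity), all larger than `z` -/
def Almost (z : ℝ) (R : ℕ) (n : ℤ) : Prop :=
  n ≠ 0 ∧ n.natAbs.primeFactorsList.length ≤ R ∧ ∀ q : ℕ, q.Prime → (q : ℤ) ∣ n → z < q

/-- Rankin's function `log M log₂ M log₄ M / (log₃ M) ^ 2` (iterated logarithms) -/
noncomputable def rankin (M : ℝ) : ℝ :=
  Real.log M * Real.log (Real.log M) * Real.log (Real.log (Real.log (Real.log M))) /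
    (Real.log (Real.log (Real.log M))) ^ 2

/-- modulo every prime some residue is different from all `-t_j` -/
def Adm {l : ℕ} (t : Fin l → ℤ) : Prop := ∀ q : ℕ, q.Prime → ∃ a < q, ∀ j, ¬ (q : ℤ) ∣ a + t j

/-- `x` is positive, all `x + t_j` have at most `R` prime factors, all larger than `M ^ κ`, and every other integer `x + i` with
`|i| ≤ κ rankin(M)` has a prime factor `≤ log M` -/
def Alone {l : ℕ} (t : Fin l → ℤ) (κ M : ℝ) (R : ℕ) (x : ℤ) : Prop :=
  0 < x ∧ (∀ j, Almost (M ^ κ) R (x + t j)) ∧
    ∀ i : ℤ, |(i : ℝ)| ≤ κ * rankin M → (∀ j, i ≠ t j) → ∃ q : ℕ, q.Prime ∧ (q : ℝ) ≤ Real.log M ∧ (q : ℤ) ∣ x + i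

open Classical in
/-- the number of pairs `z` in `S` for which the least residue `y` of `F z` satisfies `u ≤ y < u + N` and has the property `P` -/
noncomputable def hits {p : ℕ} {V : Type} (S : Finset (V × V)) (F : V × V → ZMod p) (u N : ℕ) (P : ℤ → Prop) : ℕ :=
  (S.filter (fun z => (u ≤ (F z).val ∧ (F z).val < u + N) ∧ P (F z).val)).card

/-- Every pattern without local obstruction occurs in complete isolation at many of the least residues `x` of `f(a + b) + u(a) + v(b)`, `a ∈ A`, `b ∈ B`. -/
theorem result (l B : ℕ) (d : ℕ) (hd : 2 ≤ d) (ε : ℝ) (hε : 0 < ε) (hε1 : ε ≤ 1) :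
    ∃ κ : ℝ, 0 < κ ∧ ∃ R p₀ : ℕ, ∀ p : ℕ, p₀ ≤ p → p.Prime → ∀ t : Fin l → ℤ, Adm t → (∀ j, |(t j : ℝ)| ≤ Real.log p ^ B) → ∀ (A B : Finset (ZMod p)) (f : (ZMod p)[X]), f.natDegree = d →
      ∀ (u v : ZMod p → ZMod p) (s N : ℕ), s + N ≤ p → (p : ℝ) ^ (3 + ε) ≤ (N : ℝ) ^ 2 * A.card * B.card →
      (p : ℝ) ^ (5 / 2 + ε) ≤ (N : ℝ) ^ 2 * A.card →
      ((N : ℝ) * A.card * B.card / p) * (p : ℝ) ^ (-ε) ≤
        hits (A ×ˢ B) (fun z => f.eval (z.1 + z.2) + u z.1 + v z.2) s N (Alone t κ p R) := by
  classical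
  obtain ⟨κ, hκ, cc, hcc, p₀, h⟩ := Pool.Agent.Q46.SL.sumset_poly (Lone (B + 1) : PE l 0 l → ℝ → ℝ → ℤ → Prop)
    (fun k' M => M ^ (-(ε / (2 * (((1 : ℕ) : ℝ) + 1)) * k'))) (fun k' _ => csL l l (B + 1) (ε / (2 * (((1 : ℕ) : ℝ) + 1))) (by positivity) k') d hd ε hε hε1
  obtain ⟨p₁, hp₁8, hp₁, hp₂⟩ := evI hcc hε hκ 1
  refine ⟨κ, hκ, ⌊((l : ℝ) + 2) / κ⌋₊, max p₁ p₀, ?_⟩
  intro p hp hpp t hadm hts A B f hf u v s N hs h3 h4
  have hpr : (p₁ : ℝ) ≤ p := by exact_mod_cast (le_max_left _ _).trans hp
  have : Fact p.Prime := ⟨hpp⟩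
  have key := h p ((le_max_right _ _).trans hp) (sysT t hadm) hpp A B f hf u v s N hs h3 h4
  refine le_trans (hp₁ _ hpr _ (by positivity)) (key.trans ?_)
  unfold hits Pool.Agent.Q46.SL.good1
  refine Nat.cast_le.2 ?_
  apply card_le_card
  intro z hz
  rw [mem_filter, mem_Ico] at hz
  rw [mem_filter]
  exact ⟨hz.1, hz.2.1, lone_tuple hp₁8 hpr hts hz.2.2 (by exact_mod_cast (ZMod.val_lt _).le)⟩

end Pool.Agent.Results.MP_926cc3_nt.PolynomialsOnSumsets
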